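import Pool.Agent.Run7.h647.DM.Pairs

/-!
# The ends of the diameters of a self-avoiding walk in any dimension

Self-avoiding walks on `ℤ^d`, every `d ≥ 1`.  A site of a walk is *diametral* if its Euclidean distance
from some other site of the walk is the diameter of the walk.  The number of the diametral sites of
the uniform `n`-step walk has exponential tails, uniformly in `n`.  Hence the number `c_n` of the
`n`-step walks is, up to a factor which depends only on `d`, the number of the pairs of walks from `0`
with `n` steps together which meet at `0` only and such that `0` is an end of a diameter of their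
union.

Proof.  Let `v` be a diametral site, `u` a partner of it, and `κ` the coordinate direction in which
`v - u` is largest.  One of the two steps of the walk at `v` is perpendicular to `κ`.  It can be
replaced by three steps around a plaquette in the direction `κ`, since the two new sites are farther
from `u` than the diameter.  All this can be done at the same time for all the diametral sites of a
class (with `κ` and the parity of the time fixed).  The old walk can be recovered: an end of a
diameter of the new walk is a new site, which gives (up to a bounded number of choices) a diametral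
site `v` of the old walk; the old diameter is the largest distance of `v` from the sites of the new
walk which are below `v` in the direction `κ`; and a site of the new walk is new if and only if there
is a site below it whose distance from it is larger than the old diameter.
-/

set_option autoImplicit false

namespace Pool.Agent.Results.MP_b5172a_pr.DiametralSites

/-- `v` and `w` are nearest neighbours in `ℤ^d` -/
def Nb {d : ℕ} (v w : Fin d → ℤ) : Prop := ∑ i, |w i - v i| = 1

/-- the `n`-step self-avoiding walks from `0` in `ℤ^d`, as lists of `n + 1` sites -/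
def walks (d n : ℕ) : Set (List (Fin d → ℤ)) :=
  {l | l.length = n + 1 ∧ l.head? = some 0 ∧ l.IsChain Nb ∧ l.Nodup}

/-- the squared Euclidean distance -/
def dist2 {d : ℕ} (v w : Fin d → ℤ) : ℤ := ∑ i, (v i - w i) ^ 2

/-- `v` is an end of a diameter of the set `S` of sites: some site of `S` has the distance `diam S`
from `v` -/
def IsEnd {d : ℕ} (S : Set (Fin d → ℤ)) (v : Fin d → ℤ) : Prop :=
  ∃ u ∈ S, ∀ a ∈ S, ∀ b ∈ S, dist2 a b ≤ dist2 v u

/-- the diametral sites of a walk -/
def diametral {d : ℕ} (l : List (Fin d → ℤ)) : Set (Fin d → ℤ) := {v | v ∈ l ∧ IsEnd {w | w ∈ l} v}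

/-- the probability of an event under the uniform law on the `n`-step walks -/
noncomputable def prob (d n : ℕ) (E : List (Fin d → ℤ) → Prop) : ℝ :=
  (({l | l ∈ walks d n ∧ E l} : Set (List (Fin d → ℤ))).ncard : ℝ) / (walks d n).ncard

/-- the pairs of walks from `0` with `n` steps together which meet at `0` only, such that `0` is an end
of a diameter of the union: `(k, a, b)`, where `a` has `k` steps and `b` has `n - k` steps -/
def pairs (d n : ℕ) : Set (ℕ × List (Fin d → ℤ) × List (Fin d → ℤ)) :=
  {p | p.1 ≤ n ∧ p.2.1 ∈ walks d p.1 ∧ p.2.2 ∈ walks d (n - p.1) ∧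
    (∀ v ∈ p.2.1, v ∈ p.2.2 → v = 0) ∧ IsEnd {w | w ∈ p.2.1 ∨ w ∈ p.2.2} 0}

section
open Run7.h738.EX Run7.h647.DM

theorem walks_eq {d : ℕ} (j : Fin d × Bool) (n : ℕ) :
    walks d n = (WF (Ls j) Set.univ 0 n : Set (List (Fin d → ℤ))) := by
  ext l
  rw [Finset.mem_coe, mem_WF]
  constructor
  · rintro ⟨h1, h2, h3, h4⟩
    exact ⟨h1, h2, h3, h4, fun _ _ => Set.mem_univ _⟩
  · rintro ⟨h1, h2, h3, h4, -⟩
    exact ⟨h1, h2, h3, h4⟩

theorem walks_iff {d : ℕ} (j : Fin d × Bool) {n : ℕ} {l : List (Fin d → ℤ)} :
    l ∈ walks d n ↔ l ∈ WK (Ls j) Set.univ 0 n := by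
  rw [walks_eq j, Finset.mem_coe, mem_WF]

theorem diametral_eq {d : ℕ} (l : List (Fin d → ℤ)) :
    (diametral l).ncard = (Dm sqd l).card := by
  rw [← Set.ncard_coe_finset]
  congr 1
  ext v
  rw [Finset.mem_coe, mem_Dm]
  exact Iff.rfl

theorem pairs_eq {d : ℕ} (j : Fin d × Bool) (n : ℕ) : pairs d n = PD j n := by
  ext p
  unfold pairs PD
  simp only [Set.mem_ofPred_eq, walks_iff j]
  constructor
  · rintro ⟨h1, h2, h3, h4, u, hu, h5⟩
    exact ⟨h1, h2, h3, h4, u, hu, fun a b ha hb => h5 a ha b hb⟩
  · rintro ⟨h1, h2, h3, h4, u, hu, h5⟩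
    exact ⟨h1, h2, h3, h4, u, hu, fun a ha b hb => h5 a b ha hb⟩

end

/-- **The diametral sites.**  Let `d ≥ 1` and `n ≥ 0`.  (1) The uniform `n`-step self-avoiding walk on
`ℤ^d` has more than `630 d ^ 4 (1 + x)` diametral sites with probability at most `exp (-x)`, for all
real `x ≥ 0`.  (2) `c_n`, the number of the `n`-step walks, and the number `D_n` of the pairs of walks
from `0` with `n` steps together which meet at `0` only, and such that `0` is an end of a diameter of
their union, satisfy `c_n ≤ D_n ≤ 1000 d ^ 4 c_n`. -/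
theorem result (d n : ℕ) (hd : 1 ≤ d) :
    (∀ x : ℝ, 0 ≤ x →
      prob d n (fun l => 630 * (d : ℝ) ^ 4 * (1 + x) < (diametral l).ncard) ≤ Real.exp (-x)) ∧
    (walks d n).ncard ≤ (pairs d n).ncard ∧
    (pairs d n).ncard ≤ 1000 * d ^ 4 * (walks d n).ncard := by
  set j : Fin d × Bool := (⟨0, hd⟩, true) with hj
  refine ⟨fun x hx => ?_, ?_, ?_⟩
  · have h := Run7.h647.DM.zd_exp 0 j n hx
    have e : (({l | l ∈ walks d n ∧ 630 * (d : ℝ) ^ 4 * (1 + x) < (diametral l).ncard} :
        Set (List (Fin d → ℤ))).ncard : ℝ) =
        ((Run7.h738.EX.WF (Run7.h647.DM.Ls j) Set.univ 0 n).filter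
          (fun l => 630 * (d : ℝ) ^ 4 * (1 + x) < (Run7.h647.DM.Dm Run7.h647.DM.sqd l).card)).card := by
      rw [← Set.ncard_coe_finset]
      congr 2
      ext l
      rw [Finset.mem_coe, Finset.mem_filter, ← Finset.mem_coe, ← walks_eq j]
      simp only [Set.mem_ofPred_eq, diametral_eq]
    unfold prob
    rw [e, walks_eq j n, Set.ncard_coe_finset]
    exact div_le_of_le_mul₀ (Nat.cast_nonneg _) (Real.exp_pos _).le h
  · rw [walks_eq j, Set.ncard_coe_finset, pairs_eq j]
    exact Run7.h647.DM.PD_ge j n
  · rw [walks_eq j, Set.ncard_coe_finset, pairs_eq j]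
    exact (Run7.h647.DM.PD_le j n).trans (Run7.h647.DM.zd_mean 0 j n)

end Pool.Agent.Results.MP_b5172a_pr.DiametralSites
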